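import Mathlib
import Pool.Agent.R143.MonoPath
import Pool.Agent.T6.H92.MC.Count

set_option autoImplicit false

/-!
# Dense point sets in general position which need superlinearly many monotone paths

The answer to Q1 is yes.  The sets `A_n` are perturbed grids: the grid point `P = (x, y)`,
`0 ≤ x, y < m`, is moved to `P + h(P) (√2, 1)`, where `h(P) = e (m² + 2) ^ (x + m y)` is tiny but
grows exponentially with the position `x + m y` of `P`.  Along every grid line the perturbation is
so steep that a monotone path contains at most four segments from the first to the last part of the
line, whereas a direction which is not almost perpendicular to the path contributes only boundedly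
many such segments.  Summing over the directions `(p, q)`, `q` a prime, `0 < p < q`, gives
`mc(A_n) ≥ c n ∑ 1 / q`, where `q` runs over the primes up to a small power of `n`, and the sum of
the reciprocals of the primes diverges.

`Plane`, `GeneralPosition`, `IsDense` and `mc` are defined in `Pool.Agent.R143.MonoPath`.
-/

namespace Pool.Agent.Results.MP_9c8b61_co.SuperlinearCover

open Pool.Agent.R143.MonoPath Filter Topology

/-- There are a constant `α > 0` and for every `n` an `α`-dense `n`-point set `A n` in general
position in the plane such that `mc(A n) / n → ∞`. -/
theorem result : ∃ α : ℝ, 0 < α ∧ ∃ A : ℕ → Finset Plane,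
    (∀ n : ℕ, (A n).card = n ∧ GeneralPosition (A n) ∧ IsDense α (A n)) ∧
      Tendsto (fun n : ℕ => (mc (A n) : ℝ) / n) atTop atTop :=
  Pool.Agent.T6.H92.MC.final

end Pool.Agent.Results.MP_9c8b61_co.SuperlinearCover
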